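import Pool.Agent.MP_670f9a_nt.H13.Spec2

/-! Elimination of one variable, and curves that contain no translate of a subtorus. -/

namespace Pool.Agent.MP_670f9a_nt.H54

open Polynomial Pool.Agent.MP_670f9a_nt.NP
open scoped nonZeroDivisors

namespace Elim

lemma exists_comb {A : Type} [CommRing A] [IsDomain A] [IsGCDMonoid A] {p g : A[X]}
    (hp : Irreducible p) (hg : ¬ p ∣ g) : ∃ (r : A) (a b : A[X]), r ≠ 0 ∧ C r = a * p + b * g := by
  by_cases h0 : p.natDegree = 0
  · refine ⟨p.coeff 0, 1, 0, fun h => hp.ne_zero ?_, ?_⟩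
    · rw [eq_C_of_natDegree_eq_zero h0, h, C_0]
    · rw [one_mul, zero_mul, add_zero, ← eq_C_of_natDegree_eq_zero h0]
  have h1 := hp.isPrimitive h0
  have h2 : Irreducible (p.map (algebraMap A (FractionRing A))) :=
    h1.irreducible_iff_irreducible_map_fraction_map.1 hp
  obtain ⟨a, b, hab⟩ := h2.coprime_iff_not_dvd.2
    fun h => hg (h1.dvd_of_fraction_map_dvd_fraction_map h)
  obtain ⟨c, c0, hc⟩ := IsLocalization.integerNormalization_spec A⁰ a
  obtain ⟨d, d0, hd⟩ := IsLocalization.integerNormalization_spec A⁰ b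
  rw [Algebra.smul_def, Polynomial.algebraMap_apply] at hc hd
  refine ⟨c * d, C d * IsLocalization.integerNormalization A⁰ a,
    C c * IsLocalization.integerNormalization A⁰ b,
    mul_ne_zero (nonZeroDivisors.ne_zero c0) (nonZeroDivisors.ne_zero d0), ?_⟩
  apply map_injective (algebraMap A (FractionRing A)) (IsFractionRing.injective _ _)
  simp only [Polynomial.map_add, Polynomial.map_mul, hc, hd, map_C, map_mul]
  linear_combination (-(C (algebraMap A (FractionRing A) c) *
    C (algebraMap A (FractionRing A) d))) * hab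

lemma aeval_sum (S : Finset (Fin 2 →₀ ℕ)) (c : (Fin 2 →₀ ℕ) → ℤ) (u v : ℂ) (q₁ : ℤ) (q₂ : ℕ)
    (hv : v ≠ 0) :
    MvPolynomial.aeval ![u * v ^ q₁, v ^ q₂] (∑ m ∈ S, MvPolynomial.monomial m (c m)) =
      ∑ m ∈ S, (c m : ℂ) * u ^ m 0 * v ^ wt q₁ q₂ m := by
  rw [map_sum]
  refine Finset.sum_congr rfl fun m _ => ?_
  rw [MvPolynomial.aeval_monomial, Finsupp.prod_fintype _ _ (by simp), Fin.prod_univ_two, wt,
    zpow_add₀ hv, zpow_mul, zpow_mul]
  simp only [Matrix.cons_val_zero, Matrix.cons_val_one, zpow_natCast, mul_pow, eq_intCast]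
  ring

lemma level_zero (S : Finset (Fin 2 →₀ ℕ)) (a : (Fin 2 →₀ ℕ) → ℂ) (w : (Fin 2 →₀ ℕ) → ℤ)
    (h : ∀ v : ℂ, v ≠ 0 → ∑ m ∈ S, a m * v ^ w m = 0) {s : Fin 2 →₀ ℕ} (hs : s ∈ S) :
    ∑ m ∈ S.filter (fun m => w m = w s), a m = 0 := by
  have li : LinearIndependent ℂ fun (k : ℤ) (v : ℂˣ) => (v : ℂ) ^ k := by
    have := (linearIndependent_monoidHom ℂˣ ℂ).comp
      (fun k : ℤ => (Units.coeHom ℂ).comp (zpowGroupHom k)) fun k l e => by
        have e2 := congrArg (fun z : ℂ => ‖z‖) (DFunLike.congr_fun e (Units.mk0 2 two_ne_zero))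
        simp only [MonoidHom.comp_apply, zpowGroupHom_apply, Units.coeHom_apply,
          Units.val_zpow_eq_zpow_val, Units.val_mk0, norm_zpow, Complex.norm_ofNat] at e2
        exact zpow_right_injective₀ two_pos (by norm_num) e2
    have e : (fun (k : ℤ) (v : ℂˣ) => (v : ℂ) ^ k) = (fun f : ℂˣ →* ℂ => (f : ℂˣ → ℂ)) ∘
        fun k : ℤ => (Units.coeHom ℂ).comp (zpowGroupHom k) := by
      funext k v
      simp
    rw [e]
    exact this
  refine linearIndependent_iff'.1 li (S.image w)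
    (fun k => ∑ m ∈ S.filter (fun m => w m = k), a m) ?_ _ (Finset.mem_image_of_mem w hs)
  funext v
  rw [Finset.sum_apply, Pi.zero_apply, ← h v v.ne_zero,
    ← Finset.sum_fiberwise_of_maps_to (g := w) fun m hm => Finset.mem_image_of_mem w hm]
  refine Finset.sum_congr rfl fun k _ => ?_
  rw [Pi.smul_apply, smul_eq_mul, Finset.sum_mul]
  exact Finset.sum_congr rfl fun m hm => by rw [(Finset.mem_filter.1 hm).2]

end Elim

open Elim

theorem sElim : SElim := by
  intro P G hP hG
  let e : MvPolynomial (Fin 2) ℤ ≃ₐ[ℤ] ℤ[X][X] :=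
    (Bivariate.equivMvPolynomial ℤ).symm.trans Bivariate.swap
  have he : ∀ (x y : ℂ) (Q : MvPolynomial (Fin 2) ℤ),
      aevalAeval y x (e Q) = MvPolynomial.aeval ![x, y] Q := by
    intro x y Q
    have : (aevalAeval y x).comp e.toAlgHom = MvPolynomial.aeval ![x, y] := by
      ext i
      fin_cases i <;> simp [e, Bivariate.swap_apply]
    exact DFunLike.congr_fun this Q
  obtain ⟨r, a, b, hr, h⟩ := exists_comb (p := e P) (g := e G) (hP.map e)
    fun h => hG ((map_dvd_iff e).1 h)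
  refine ⟨r, hr, fun x y h1 h2 => ?_⟩
  rw [← aevalAeval_C y x r, h, map_add, map_mul, map_mul, he, he, h1, h2]
  simp

theorem sNoTorus (h : SElim) : SNoTorus := by
  classical
  intro P hP hc
  have key : ∀ (u : ℂ) (q₁ : ℤ) (q₂ : ℕ), 1 ≤ q₂ →
      ∃ v : ℂ, v ≠ 0 ∧ MvPolynomial.aeval ![u * v ^ q₁, v ^ q₂] P ≠ 0 := by
    intro u q₁ q₂ hq
    by_contra hn
    push Not at hn
    obtain ⟨s, hs⟩ := MvPolynomial.support_nonempty.2 hP.ne_zero
    have h0 := level_zero P.support (fun m => ((MvPolynomial.coeff m P : ℤ) : ℂ) * u ^ m 0) (wt q₁ q₂)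
      (fun v hv => by
        rw [← aeval_sum _ _ _ _ _ _ hv, ← MvPolynomial.as_sum]
        exact hn v hv) hs
    set S := P.support.filter fun m => wt q₁ q₂ m = wt q₁ q₂ s with hS
    set G : MvPolynomial (Fin 2) ℤ :=
      ∑ m ∈ S, MvPolynomial.monomial m (MvPolynomial.coeff m P) with hG
    have hco : ∀ m, MvPolynomial.coeff m G = if m ∈ S then MvPolynomial.coeff m P else 0 := by
      intro m
      simp only [hG, MvPolynomial.coeff_sum, MvPolynomial.coeff_monomial]
      rw [Finset.sum_ite_eq']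
    have hGv : ∀ v : ℂ, v ≠ 0 → MvPolynomial.aeval ![u * v ^ q₁, v ^ q₂] G = 0 := by
      intro v hv
      rw [hG, aeval_sum _ _ _ _ _ _ hv, Finset.sum_congr rfl (g := fun m =>
        ((MvPolynomial.coeff m P : ℤ) : ℂ) * u ^ m 0 * v ^ wt q₁ q₂ s)
        fun m hm => by rw [(Finset.mem_filter.1 hm).2], ← Finset.sum_mul, h0, zero_mul]
    have hd : P ∣ G := by
      by_contra hnd
      obtain ⟨R, hR, hz⟩ := h P G hP hnd
      refine hR (Polynomial.map_injective (algebraMap ℤ ℂ) (RingHom.injective_int _) ?_)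
      rw [Polynomial.map_zero]
      refine eq_zero_of_infinite_isRoot _
        ((Set.finite_singleton (0 : ℂ)).infinite_compl.mono fun y hy => ?_)
      obtain ⟨v, rfl⟩ := IsAlgClosed.exists_pow_nat_eq y hq
      have hv : v ≠ 0 := fun e => hy (by rw [e, zero_pow (by omega)]; rfl)
      show IsRoot _ _
      rw [IsRoot, eval_map_algebraMap]
      exact hz _ _ (hn v hv) (hGv v hv)
    obtain ⟨Q, hQ⟩ := hd
    have hG0 : G ≠ 0 := fun e => by
      have := hco s
      rw [e, if_pos (show s ∈ S from Finset.mem_filter.2 ⟨hs, rfl⟩), MvPolynomial.coeff_zero] at this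
      exact MvPolynomial.mem_support_iff.1 hs this.symm
    have hQ0 : Q ≠ 0 := fun e => hG0 (by rw [hQ, e, mul_zero])
    have hdeg : G.totalDegree ≤ P.totalDegree :=
      MvPolynomial.totalDegree_le_of_support_subset fun m hm => by
        rw [MvPolynomial.mem_support_iff] at hm ⊢
        intro e
        rw [hco, e, ite_self] at hm
        exact hm rfl
    rw [hQ, MvPolynomial.totalDegree_mul_of_isDomain hP.ne_zero hQ0] at hdeg
    have hQC := MvPolynomial.totalDegree_eq_zero_iff_eq_C.1 (show Q.totalDegree = 0 by omega)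
    have hall : ∀ m ∈ P.support, wt q₁ q₂ m = wt q₁ q₂ s := by
      intro m hm
      by_contra hne
      have h1 := hco m
      rw [if_neg (show m ∉ S from fun e => hne (Finset.mem_filter.1 e).2), hQ, hQC, mul_comm,
        MvPolynomial.coeff_C_mul] at h1
      rcases mul_eq_zero.1 h1 with h2 | h2
      · exact hQ0 (by rw [hQC, h2, map_zero])
      · exact MvPolynomial.mem_support_iff.1 hm h2
    refine hc ((collinear_iff_exists_forall_eq_smul_vadd _).2
      ⟨fun i => (s i : ℝ), ![(q₂ : ℝ), -(q₁ : ℝ)], ?_⟩)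
    rintro _ ⟨m, hm, rfl⟩
    have h1 : (q₁ : ℝ) * m 0 + q₂ * m 1 = q₁ * s 0 + q₂ * s 1 := by
      have := hall m hm
      unfold wt at this
      exact_mod_cast this
    have h2 : (q₂ : ℝ) ≠ 0 := by positivity
    refine ⟨((m 0 : ℝ) - s 0) / q₂, funext fun i => ?_⟩
    fin_cases i
    · simp [h2]
    · simp only [Fin.mk_one, vadd_eq_add, Pi.add_apply, Pi.smul_apply, Matrix.cons_val_one,
        Matrix.cons_val_zero, smul_eq_mul]
      field_simp
      linarith
  refine ⟨key, ?_, ?_⟩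
  · obtain ⟨v, hv, h1⟩ := key 0 0 1 le_rfl
    by_contra hn
    push Not at hn
    refine h1 ?_
    rw [P.as_sum, aeval_sum _ _ _ _ _ _ hv]
    exact Finset.sum_eq_zero fun m hm => by rw [zero_pow (hn m hm), mul_zero, zero_mul]
  · by_contra hn
    refine hc ((collinear_iff_exists_forall_eq_smul_vadd _).2 ⟨0, ![0, 1], ?_⟩)
    rintro _ ⟨m, hm, rfl⟩
    have h1 : m 0 = 0 := by
      have := MvPolynomial.monomial_le_degreeOf 0 hm
      omega
    refine ⟨(m 1 : ℝ), funext fun i => ?_⟩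
    fin_cases i <;> simp [h1]

end Pool.Agent.MP_670f9a_nt.H54
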