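import Pool.Agent.MP_670f9a_nt.H13.Spec

/-! The hedgehog estimate for minors of a truncated square root. -/

namespace Pool.Agent.MP_670f9a_nt.H54

open Polynomial Pool.Agent.MP_670f9a_nt.H13

theorem lin_scale (b : Multiset ℂ) (r : ℂ) :
    lin (b.map fun w => w * r) = (lin b).comp (C r * X) := by
  rw [lin, lin, multiset_prod_comp, Multiset.map_map, Multiset.map_map]
  congr 1
  refine Multiset.map_congr rfl fun w _ => ?_
  simp [mul_assoc]

theorem two_pow_le_exp (n : ℕ) : (2 : ℝ) ^ n ≤ Real.exp n := by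
  rw [← Real.exp_one_pow]
  exact pow_le_pow_left₀ (by norm_num) (by linarith [Real.add_one_le_exp (1 : ℝ)]) n

theorem num (s N : ℕ) (hs : 1 ≤ s) (hN : N = 10 ^ 6 * s ^ 2) :
    ((2 : ℝ) ^ s * (10 / (1 / (256 * ((s + 1 : ℕ) : ℝ))))) ^ N *
        Real.exp (N * Real.log N + N - (N : ℝ) ^ 2 / (4096 * ((s + 1 : ℕ) : ℝ))) ≤
      Real.exp (-((N : ℝ) ^ 2 / (16384 * s))) := by
  have s1 : (1 : ℝ) ≤ s := by exact_mod_cast hs
  have hNr : (N : ℝ) = 10 ^ 6 * (s : ℝ) ^ 2 := by rw [hN]; push_cast; ring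
  have hes : (s : ℝ) ≤ Real.exp s := by linarith [Real.add_one_le_exp (s : ℝ)]
  have h13 : (8192 : ℝ) ≤ Real.exp 13 := by
    have := two_pow_le_exp 13
    norm_num at this
    exact this
  have h20 : (10 ^ 6 : ℝ) ≤ Real.exp 20 := by
    have := two_pow_le_exp 20
    norm_num at this ⊢
    linarith
  have hM : (2 : ℝ) ^ s * (10 / (1 / (256 * ((s + 1 : ℕ) : ℝ)))) ≤ Real.exp (15 * s) := by
    have e : (10 : ℝ) / (1 / (256 * ((s + 1 : ℕ) : ℝ))) = 2560 * (s + 1) := by
      push_cast; field_simp; norm_num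
    rw [e]
    calc (2 : ℝ) ^ s * (2560 * (s + 1)) ≤ Real.exp s * (Real.exp 13 * Real.exp s) :=
          mul_le_mul (two_pow_le_exp s)
            (le_trans (by linarith) (mul_le_mul h13 hes (by linarith) (Real.exp_pos _).le))
            (by positivity) (Real.exp_pos _).le
      _ = Real.exp (s + (13 + s)) := by rw [Real.exp_add, Real.exp_add]
      _ ≤ Real.exp (15 * s) := Real.exp_le_exp.2 (by linarith)
  have hlog : Real.log N ≤ 20 + 2 * s := by
    rw [Real.log_le_iff_le_exp (by rw [hNr]; positivity), hNr, Real.exp_add, two_mul,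
      Real.exp_add, sq]
    exact mul_le_mul h20 (mul_le_mul hes hes (by linarith) (Real.exp_pos _).le) (by positivity)
      (Real.exp_pos _).le
  refine (mul_le_mul_of_nonneg_right (pow_le_pow_left₀ (by positivity) hM N)
    (Real.exp_pos _).le).trans ?_
  rw [← Real.exp_nat_mul, ← Real.exp_add, Real.exp_le_exp]
  have N0 : (0 : ℝ) ≤ N := Nat.cast_nonneg N
  have e1 : (N : ℝ) ^ 2 / (16384 * s) = N * (10 ^ 6 / 16384 * s) := by
    rw [sq (N : ℝ), mul_div_assoc]
    congr 1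
    rw [hNr]
    field_simp
  have e2 : 2 * ((N : ℝ) ^ 2 / (16384 * s)) ≤ (N : ℝ) ^ 2 / (4096 * ((s + 1 : ℕ) : ℝ)) := by
    have : 2 * ((N : ℝ) ^ 2 / (16384 * s)) = (N : ℝ) ^ 2 / (8192 * s) := by
      field_simp; ring
    rw [this]
    exact div_le_div_of_nonneg_left (by positivity) (by positivity) (by push_cast; linarith)
  have e3 : (N : ℝ) * (15 * s + Real.log N + 1) ≤ N * (10 ^ 6 / 16384 * s) :=
    mul_le_mul_of_nonneg_left (by norm_num; linarith) N0
  linarith

theorem shedge : SVan → SFun → SDet → SHedge := by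
  intro hV hF hD b R Φ M N e hs hR hb h0 hdvd hN he
  have R0 : (0 : ℝ) < R := by linarith
  have Rc : (R : ℂ) ≠ 0 := by exact_mod_cast R0.ne'
  set s := b.card with hsd
  have N1 : 64 * (s + 1) ≤ N := by rw [hN]; nlinarith
  have hM : s + 2 ≤ M := by
    have := he ⟨0, by omega⟩
    omega
  have g1 : (1 : ℝ) ≤ ((s + 1 : ℕ) : ℝ) := by exact_mod_cast Nat.succ_pos s
  obtain ⟨Ω, hΩ, hΩ1, hfun⟩ := hF (b.map fun w => w * (R : ℂ)⁻¹) (1 / (256 * ((s + 1 : ℕ) : ℝ)))
    (by positivity) (one_div_le_one_div_of_le (by norm_num) (by linarith)) (by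
      intro w hw
      obtain ⟨u, hu, rfl⟩ := Multiset.mem_map.1 hw
      rw [norm_mul, norm_inv, Complex.norm_real, Real.norm_of_nonneg R0.le, ← div_eq_mul_inv,
        div_lt_one R0]
      exact hb u hu)
  rw [Multiset.card_map, ← hsd] at hΩ hfun
  set Ψ := Φ.comp (C (R : ℂ)⁻¹ * X) with hΨ
  have hc : ∀ n, Φ.coeff n = (R : ℂ) ^ n * Ψ.coeff n := fun n => by
    rw [hΨ, comp_C_mul_X_coeff, inv_pow]
    field_simp
  have hfun' := hfun Ψ M (by rw [hΨ, comp_C_mul_X_coeff, h0]; simp) (by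
    rw [lin_scale, hΨ, ← pow_comp, ← sub_comp, X_pow_dvd_iff]
    intro d hd
    rw [comp_C_mul_X_coeff, X_pow_dvd_iff.1 hdvd d hd, zero_mul])
  have key := hD (fun k => Ψ.coeff (k + s + 1)) {z | Hedge Ω (1 / (256 * ((s + 1 : ℕ) : ℝ))) z}
    (M - s - 2) N _ _ (fun i => e i - (s + 1))
    (fun f B' hf hB => hfun' f B' (by omega) hB) (fun i => by have := he i; omega)
    (fun z hz => hz.1) (fun z hz => hV (s + 1) N Ω z (by omega) hΩ hΩ1 N1 hz)
  have e1 : (Matrix.of fun i j : Fin N => Φ.coeff (e i + j)) =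
      Matrix.of fun i j : Fin N => (R : ℂ) ^ e i * (Matrix.of fun i j : Fin N => (R : ℂ) ^ (j : ℕ) *
        (Matrix.of fun i j : Fin N => Ψ.coeff (e i - (s + 1) + j + s + 1)) i j) i j := by
    ext i j
    have := he i
    simp only [Matrix.of_apply]
    rw [hc, pow_add, mul_assoc, show e i - (s + 1) + j + s + 1 = e i + j by omega]
  rw [e1, Matrix.det_mul_column, Matrix.det_mul_row, ← mul_assoc, ← Finset.prod_mul_distrib,
    norm_mul]
  refine mul_le_mul ?_ (key.trans (num s N hs hN)) (norm_nonneg _) (by positivity)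
  rw [norm_prod, mul_comm N M, pow_mul]
  refine (Finset.prod_le_prod (g := fun _ => R ^ M) (fun _ _ => norm_nonneg _)
    fun i _ => ?_).trans (by simp)
  rw [← pow_add, norm_pow, Complex.norm_real, Real.norm_of_nonneg R0.le]
  exact pow_le_pow_right₀ hR (by have := he i; have := i.2; omega)

end Pool.Agent.MP_670f9a_nt.H54
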